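import Pool.Agent.Helper94.PQ.Stmts

set_option autoImplicit false

open NumberField

namespace PQ

namespace H35

open BKA

/-- a root of unity of `ℓ`-power order, different from `1` and congruent to `1` -/
theorem root_cong {R : Type*} [CommRing R] [IsDomain R] (I : Ideal R) (l : ℕ) :
    ∀ (n : ℕ) (x : R), x ^ (l ^ n) = 1 → x ≠ 1 → x - 1 ∈ I → (l : R) ∈ I := by
  intro n
  induction n with
  | zero =>
    intro x hx hx1 _
    rw [pow_zero, pow_one] at hx
    exact absurd hx hx1
  | succ n ih =>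
    intro x hx hx1 hI
    by_cases h : x ^ l = 1
    · have h1 : (∑ i ∈ Finset.range l, x ^ i) = 0 := by
        have h2 := geom_sum_mul x l
        rw [h, sub_self] at h2
        rcases mul_eq_zero.1 h2 with h3 | h3
        · exact h3
        · exact absurd (sub_eq_zero.1 h3) hx1
      have h2 : (∑ i ∈ Finset.range l, (x ^ i - 1)) ∈ I := by
        refine Ideal.sum_mem _ fun i _ => ?_
        have := sub_dvd_pow_sub_pow x 1 i
        rw [one_pow] at this
        exact Ideal.mem_of_dvd _ this hI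
      rw [Finset.sum_sub_distrib, h1] at h2
      simpa using h2
    · refine ih (x ^ l) ?_ h ?_
      · rw [← pow_mul, ← pow_succ']; exact hx
      · have := sub_dvd_pow_sub_pow x 1 l
        rw [one_pow] at this
        exact Ideal.mem_of_dvd _ this hI

theorem l_notMem {F : Type} [Field F] [NumberField F] {v : Pl F} {P : Ideal (Zb F)}
    (h : Over v P) {l : ℕ} (hl : (l : 𝓞 F) ∉ v.asIdeal) : (l : Zb F) ∉ P := by
  intro h1
  exact hl ((h.2 (l : 𝓞 F) (l : Zb F) (by simp)).2 h1)

/-- the inertia group fixes the roots of unity of order prime to the place -/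
theorem fix_root {F : Type} [Field F] [NumberField F] {v : Pl F} {P : Ideal (Zb F)}
    (h : Over v P) {l : ℕ} (hl0 : l ≠ 0) (hl : (l : 𝓞 F) ∉ v.asIdeal) {σ : Gal F}
    (hσ : Congr P 1 σ) {n : ℕ} {z : AlgebraicClosure F} (hz : z ^ (l ^ n) = 1) : σ z = z := by
  have hn : 0 < l ^ n := pow_pos (Nat.pos_of_ne_zero hl0) n
  have hzi : IsIntegral ℤ z := IsIntegral.of_pow hn (by rw [hz]; exact isIntegral_one)
  have hwi : IsIntegral ℤ (σ z) := hzi.map (σ : AlgebraicClosure F →+* AlgebraicClosure F).toIntAlgHom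
  set Z : Zb F := ⟨z, hzi⟩
  set W : Zb F := ⟨σ z, hwi⟩
  have h1 : W - Z ^ 1 ∈ P := hσ Z W rfl
  rw [pow_one] at h1
  have hZ : Z ^ (l ^ n) = 1 := Subtype.ext (by simpa [Z] using hz)
  have hW : W ^ (l ^ n) = 1 := Subtype.ext (by
    show (σ z) ^ (l ^ n) = 1
    rw [← map_pow, hz, map_one])
  have h2 : Z ^ (l ^ n - 1) * Z = 1 := by
    rw [← pow_succ, Nat.sub_add_cancel hn, hZ]
  by_cases hx : W * Z ^ (l ^ n - 1) = 1
  · have h3 : W = Z := by
      calc W = W * (Z ^ (l ^ n - 1) * Z) := by rw [h2, mul_one]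
        _ = (W * Z ^ (l ^ n - 1)) * Z := by ring
        _ = Z := by rw [hx, one_mul]
    exact congrArg Subtype.val h3
  · exfalso
    refine l_notMem h hl (root_cong P l n (W * Z ^ (l ^ n - 1)) ?_ hx ?_)
    · rw [mul_pow, hW, ← pow_mul, mul_comm (l ^ n - 1), pow_mul, hZ, one_pow, mul_one]
    · have : W * Z ^ (l ^ n - 1) - 1 = (W - Z) * Z ^ (l ^ n - 1) := by
        rw [sub_mul, mul_comm Z, h2]
      rw [this]
      exact Ideal.mul_mem_right _ _ h1

theorem cyci : ST_CYCI := by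
  intro F _ _ v P h l _ hl σ hσ
  have hl0 : l ≠ 0 := (Fact.out : l.Prime).ne_zero
  have hN : ∀ i : ℕ, NeZero ((l ^ i : ℕ) : AlgebraicClosure F) := fun i =>
    ⟨by exact_mod_cast pow_ne_zero i hl0⟩
  have hE : ∀ i : ℕ, HasEnoughRootsOfUnity (AlgebraicClosure F) (l ^ i) := fun i => by
    have := hN i
    infer_instance
  have key : cyclotomicCharacter (AlgebraicClosure F) l σ.toRingEquiv = 1 := by
    apply Units.ext
    refine PadicInt.ext_of_toZModPow.mp fun n => ?_
    obtain ⟨ζ, hζ⟩ := (hE n).exists_primitiveRoot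
    have h1 := cyclotomicCharacter.spec l (n := n) σ.toRingEquiv ζ hζ.pow_eq_one
    have h2 : σ.toRingEquiv ζ = ζ := fix_root h hl0 hl hσ hζ.pow_eq_one
    rw [h2] at h1
    set a := PadicInt.toZModPow n
      (cyclotomicCharacter (AlgebraicClosure F) l σ.toRingEquiv).val with ha
    have h3 : ζ ^ a.val = ζ ^ 1 := by rw [pow_one]; exact h1.symm
    have hζ0 : ζ ≠ 0 := hζ.ne_zero (pow_ne_zero _ hl0)
    have h4 : ((l ^ n : ℕ) : ℤ) ∣ (a.val : ℤ) - 1 := by
      rw [← hζ.zpow_eq_one_iff_dvd, zpow_sub₀ hζ0, zpow_natCast, h3, pow_one, zpow_one,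
        div_self hζ0]
    have h5 := (ZMod.intCast_zmod_eq_zero_iff_dvd _ _).2 h4
    have h6 : NeZero (l ^ n) := ⟨pow_ne_zero _ hl0⟩
    push_cast at h5
    rw [ZMod.natCast_val, ZMod.cast_id, sub_eq_zero] at h5
    rw [h5]
    simp
  show Units.map _ (cyclotomicCharacter (AlgebraicClosure F) l σ.toRingEquiv) = 1
  rw [key, map_one]

end H35

end PQ
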