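import Pool.Agent.Helper94.PQ.Stmts

set_option autoImplicit false

open NumberField
open scoped Classical IntermediateField

namespace PQ

namespace H35

open BKA Pool.Agent.Helper13.Swan

theorem normal_sq {F : Type} [Field F] {x : F} {y : AlgebraicClosure F}
    (hy : y ^ 2 = algebraMap F (AlgebraicClosure F) x) : Normal F F⟮y⟯ := by
  rw [IntermediateField.normal_iff_forall_map_le']
  intro σ
  rw [IntermediateField.adjoin_map, IntermediateField.adjoin_le_iff]
  rintro z ⟨z', rfl, rfl⟩
  have h1 : (σ z') ^ 2 = z' ^ 2 := by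
    rw [← map_pow, hy, AlgEquiv.commutes]
  rcases sq_eq_sq_iff_eq_or_eq_neg.1 h1 with h | h
  · show σ z' ∈ _
    rw [h]; exact IntermediateField.mem_adjoin_simple_self F z'
  · show σ z' ∈ _
    rw [h]; exact neg_mem (IntermediateField.mem_adjoin_simple_self F z')

theorem fin_sq {F : Type} [Field F] (y : AlgebraicClosure F) : FiniteDimensional F F⟮y⟯ :=
  IntermediateField.adjoin.finiteDimensional (Algebra.IsIntegral.isIntegral y)

theorem inert (hFIN : ST_FIN) (hSUR : ST_SUR) : ST_INERT := by
  intro F _ _ v P h x y hx hy hfix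
  have hfin := fin_sq y
  have hnor := normal_sq hy
  obtain ⟨M⟩ := hFIN F v P h F⟮y⟯ hfin hnor
  set L := F⟮y⟯ with hL
  set y' : L := ⟨y, IntermediateField.mem_adjoin_simple_self F y⟩ with hy'
  have hft : Finite (L ≃ₐ[F] L) := inferInstance
  have : Fintype (Inr L P) := Fintype.ofFinite _
  have hF : Fx (⊤ : Subgroup (Inr L P)) y' := by
    rintro ⟨g, hg⟩ -
    obtain ⟨σ, hσ, hon⟩ := hSUR F v P h L hfin hnor g hg
    have h1 := hon y'
    rw [hfix σ hσ] at h1
    exact Subtype.ext h1.symm
  have hy0 : y' ≠ 0 := by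
    intro h0
    have : y = 0 := congrArg Subtype.val h0
    rw [this, zero_pow two_ne_zero] at hy
    exact hx ((map_eq_zero _).1 hy.symm)
  obtain ⟨k, hk⟩ := M.base.val_fixed ⊤ hF hy0
  have hsq : y' ^ 2 = algebraMap F L x := Subtype.ext hy
  have h1 := congrArg M.w hsq
  rw [map_pow, hk, M.val, ex_pow] at h1
  have hv0 : v.valuation F x ≠ 0 := (Valuation.ne_zero_iff _).2 hx
  obtain ⟨m, hm⟩ := exists_ex hv0
  rw [hm, ex_pow, ex_inj] at h1
  have hc : Nat.card (⊤ : Subgroup (Inr L P)) = Nat.card (Inr L P) :=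
    Nat.card_congr Subgroup.topEquiv.toEquiv
  rw [hc] at h1
  have hpos : 0 < (Nat.card (Inr L P) : ℤ) := by exact_mod_cast Nat.card_pos
  have h2 : m = 2 * k := by
    have : (Nat.card (Inr L P) : ℤ) * (m - 2 * k) = 0 := by
      push_cast at h1; linear_combination -h1
    rcases mul_eq_zero.1 this with h3 | h3
    · omega
    · omega
  have h3 : od v x = m := by
    unfold od
    rw [hm]
    unfold ex
    rw [WithZero.log_exp, neg_neg]
  rw [h3, h2]
  exact even_two_mul k

end H35

end PQ
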