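import Pool.Agent.Helper35.PQ.INERT

set_option autoImplicit false

open NumberField
open scoped Classical IntermediateField

namespace PQ

namespace H35

open BKA Pool.Agent.Helper13.Swan

section base

variable {Ω : Type*} [Field Ω] {P : Type*} [Group P] [MulSemiringAction P Ω]
  {w : Valuation Ω (WithZero (Multiplicative ℤ))} {π : Ω}

/-- inertia acts trivially on the residue field -/
theorem val_smul_sub_lt (hB : Base P w π) (g : P) {u : Ω} (hu : w u ≤ 1) : w (g • u - u) < 1 := by
  obtain ⟨z, hz, hz1⟩ := hB.res u hu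
  have e : g • u - u = g • (u - z) - (u - z) := by rw [smul_sub, hz g]; ring
  rw [e]
  refine w.map_sub_lt ?_ hz1
  rw [hB.inv]; exact hz1

/-- the first ramification group acts trivially on `π ^ k U / π ^ (k + 1) U` -/
theorem val_smul_sub_lt' (hB : Base P w π) {g : P} (hg : g ∈ Rk hB 1) {y : Ω} (hy : y ≠ 0) :
    w (g • y - y) < w y := by
  have hwy : w y ≠ 0 := (Valuation.ne_zero_iff w).2 hy
  obtain ⟨k, hk⟩ := exists_ex hwy
  have hπ0 : π ≠ 0 := hB.pi_ne
  have hwπ : w π ≠ 0 := (Valuation.ne_zero_iff w).2 hπ0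
  have hpz : ∀ m : ℤ, w (π ^ m) = ex m := by
    intro m
    rw [map_zpow₀, hB.unif]
    unfold ex
    rw [← WithZero.exp_zsmul]
    congr 1
    simp
  set u := y / π ^ k with hu
  have hu1 : w u = 1 := by
    rw [hu, map_div₀, hpz, hk, div_self (ex_ne_zero k)]
  have hu0 : u ≠ 0 := by
    intro h
    rw [h, map_zero] at hu1
    exact zero_ne_one hu1
  have h1 : w (g • π / π - 1) ≤ ex 1 := by
    have e : g • π / π - 1 = (g • π - π) / π := by field_simp
    rw [e, map_div₀, hB.unif]
    have := (mem_Rk hB 1 g).1 hg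
    calc w (g • π - π) / ex 1 ≤ ex (((1 : ℕ) : ℤ) + 1) / ex 1 :=
          div_le_div_of_nonneg_right this zero_le
      _ = ex 1 := by
          rw [← ex_sub]; norm_num
  have h1' : w (g • π / π) = 1 := by
    rw [map_div₀, hB.inv, div_self hwπ]
  have h2 : w (g • u / u - 1) ≤ ex 1 := by
    have e : g • u / u - 1 = (g • u - u) / u := by field_simp
    rw [e, map_div₀, hu1, div_one, ← lt_one_iff]
    exact val_smul_sub_lt hB g hu1.le
  have h2' : w (g • u / u) ≤ 1 := by
    rw [map_div₀, hB.inv, hu1, div_one]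
  have h3 := val_mul_sub_one (val_zpow_sub_one h1 h1' k) h2 h2'
  have e : g • y - y = ((g • π / π) ^ k * (g • u / u) - 1) * y := by
    have hy' : y = π ^ k * u := by rw [hu]; field_simp
    have hgy : g • y = (g • π) ^ k * (g • u) := by
      rw [hy', smul_mul', smul_zpow₀']
    rw [hgy, div_zpow]
    rw [hy']
    have hpk : π ^ k ≠ 0 := zpow_ne_zero _ hπ0
    field_simp
  rw [e, map_mul]
  calc w ((g • π / π) ^ k * (g • u / u) - 1) * w y ≤ ex 1 * w y := by gcongr
    _ < 1 * w y := by
        apply mul_lt_mul_of_pos_right _ (zero_lt_iff.2 hwy)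
        rw [← ex_zero, ex_lt_ex]; norm_num
    _ = w y := one_mul _

end base

/-- at an odd place `2` is a unit -/
theorem w_two {F : Type} [Field F] [NumberField F] {v : Pl F} {P : Ideal (Zb F)} (h : Over v P)
    (h2 : (2 : 𝓞 F) ∉ v.asIdeal) {L : IntermediateField F (AlgebraicClosure F)}
    (M : LocM v P L) : M.w 2 = 1 := by
  have h1 := M.int (2 : 𝓞 L)
  have e : ((2 : 𝓞 L) : L) = 2 := rfl
  rw [e] at h1
  refine le_antisymm h1.1 (not_lt.1 fun h3 => ?_)
  have h4 : inc L (2 : 𝓞 L) ∈ P := h1.2.1 h3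
  exact h2 ((h.2 (2 : 𝓞 F) (inc L (2 : 𝓞 L)) (by rw [map_ofNat]; rfl)).2 h4)

theorem congr_one {F : Type} [Field F] (P : Ideal (Zb F)) : Congr P 1 (1 : Gal F) := by
  intro x y hxy
  have : y = x := Subtype.ext hxy
  rw [this, pow_one, sub_self]
  exact P.zero_mem

theorem kum (hINERT : ST_INERT) (hGRP : ST_GRP) (hFIN : ST_FIN) : ST_KUM := by
  intro F _ _ v P h h2 τ hτ x y hx hy
  obtain ⟨g1, g2, -, -, -, -, g7, g8⟩ := hGRP F v P h
  have hfin := fin_sq y
  have hnor := normal_sq hy
  obtain ⟨M⟩ := hFIN F v P h F⟮y⟯ hfin hnor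
  set L := F⟮y⟯ with hL
  have hw2 := w_two h h2 M
  set y' : L := ⟨y, IntermediateField.mem_adjoin_simple_self F y⟩ with hy'
  have hsq : y' ^ 2 = algebraMap F L x := Subtype.ext hy
  have hy0 : y' ≠ 0 := by
    intro h0
    have : y = 0 := congrArg Subtype.val h0
    rw [this, zero_pow two_ne_zero] at hy
    exact hx ((map_eq_zero _).1 hy.symm)
  have hpm : ∀ σ : Gal F, σ y = y ∨ σ y = -y := by
    intro σ
    have h1 : (σ y) ^ 2 = y ^ 2 := by rw [← map_pow, hy, AlgEquiv.commutes]
    exact sq_eq_sq_iff_eq_or_eq_neg.1 h1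
  constructor
  · intro hτy
    refine hINERT F v P h x y hx hy fun σ hσ => ?_
    obtain ⟨j, hj⟩ := hτ.2 L hfin hnor σ hσ
    have hτj : Congr P 1 (τ ^ j) := by
      clear hj
      induction j with
      | zero => exact congr_one P
      | succ j ih => rw [pow_succ]; exact g1 _ _ ih hτ.1
    have hτjy : ∀ j : ℕ, (τ ^ j) y = y := by
      intro j
      induction j with
      | zero => rfl
      | succ j ih =>
        rw [pow_succ]
        show (τ ^ j) (τ y) = y
        rw [hτy, ih]
    have hρ : Congr P 1 (τ ^ j * σ) := g1 _ _ hτj hσ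
    have key : (τ ^ j * σ) y = y := by
      rcases hpm (τ ^ j * σ) with h3 | h3
      · exact h3
      · exfalso
        obtain ⟨g, hg, hon⟩ := g7 L hnor _ hρ
        have h4 := (g8 L 1 _ g hon).1 hj
        have h5 : (⟨g, hg⟩ : Inr L P) ∈ Rk M.base 1 := (M.ram 1 ⟨g, hg⟩).1 h4
        have h6 := val_smul_sub_lt' M.base h5 hy0
        have h7 : (⟨g, hg⟩ : Inr L P) • y' = -y' := by
          have := hon y'
          rw [h3] at this
          exact Subtype.ext this.symm
        rw [h7] at h6
        have e : -y' - y' = -(2 * y') := by ring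
        rw [e, Valuation.map_neg, map_mul, hw2, one_mul] at h6
        exact lt_irrefl _ h6
    rcases hpm σ with h3 | h3
    · exact h3
    · exfalso
      have h8 : (τ ^ j * σ) y = (τ ^ j) (σ y) := rfl
      rw [h8, h3, map_neg, hτjy j] at key
      have h9 : (2 : AlgebraicClosure F) * y = 0 := by linear_combination -key
      rcases mul_eq_zero.1 h9 with h10 | h10
      · exact two_ne_zero h10
      · exact hy0 (Subtype.ext h10)
  · rintro ⟨m, hm⟩
    rcases hpm τ with h3 | h3
    · exact h3
    · exfalso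
      obtain ⟨c, hc⟩ := v.valuation_exists_uniformizer F
      have hc0 : c ≠ 0 := by
        intro h0
        rw [h0, map_zero] at hc
        exact WithZero.exp_ne_zero hc.symm
      have hcz : v.valuation F (c ^ m) = ex m := by
        rw [map_zpow₀, hc]
        unfold ex
        rw [← WithZero.exp_zsmul]
        congr 1
        simp
      have hv0 : v.valuation F x ≠ 0 := (Valuation.ne_zero_iff _).2 hx
      obtain ⟨k, hk⟩ := exists_ex hv0
      have hkm : k = m + m := by
        rw [← hm]
        unfold od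
        rw [hk]
        unfold ex
        rw [WithZero.log_exp, neg_neg]
      have hvu : v.valuation F (x / (c ^ m) ^ 2) = 1 := by
        rw [map_div₀, map_pow, hcz, hk, hkm, pow_two, ← ex_add, div_self (ex_ne_zero _)]
      have hcm : c ^ m ≠ 0 := zpow_ne_zero _ hc0
      set z : L := y' / algebraMap F L (c ^ m) with hz
      have hz2 : z ^ 2 = algebraMap F L (x / (c ^ m) ^ 2) := by
        rw [hz, div_pow, hsq, map_div₀, map_pow]
      have hwz : M.w z = 1 := by
        have h4 : M.w z ^ 2 = 1 := by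
          rw [← map_pow, hz2, M.val, hvu, one_pow]
        exact (pow_eq_one_iff_of_nonneg zero_le two_ne_zero).1 h4
      obtain ⟨g, hg, hon⟩ := g7 L hnor _ hτ.1
      have h7 : (⟨g, hg⟩ : Inr L P) • y' = -y' := by
        have := hon y'
        rw [h3] at this
        exact Subtype.ext this.symm
      have h8 : (⟨g, hg⟩ : Inr L P) • z = -z := by
        rw [hz, smul_div₀', h7]
        have : (⟨g, hg⟩ : Inr L P) • algebraMap F L (c ^ m) = algebraMap F L (c ^ m) :=
          AlgEquiv.commutes g _
        rw [this, neg_div]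
      have h9 := val_smul_sub_lt M.base (⟨g, hg⟩ : Inr L P) hwz.le
      rw [h8] at h9
      have e : -z - z = -(2 * z) := by ring
      rw [e, Valuation.map_neg, map_mul, hw2, hwz, one_mul] at h9
      exact lt_irrefl _ h9

end H35

end PQ
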