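import Pool.Agent.Helper94.PQ.Stmts

set_option autoImplicit false

open NumberField

namespace PQ

namespace H35

theorem nine_pow (m : ℕ) : ∃ c : ℤ, (9 : ℤ) ^ (2 ^ m) = 1 + 2 ^ (m + 3) * (2 * c + 1) := by
  induction m with
  | zero => exact ⟨0, by norm_num⟩
  | succ m ih =>
    obtain ⟨c, hc⟩ := ih
    refine ⟨c + 2 ^ (m + 1) * (2 * c + 1) ^ 2, ?_⟩
    rw [pow_succ 2 m, pow_mul, hc]
    ring

theorem units_two (k : ℕ) : ∀ u : ℤ, Odd u → ∃ j : ℕ,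
    ((2 : ℤ) ^ (k + 3) ∣ u - 3 ^ j) ∨ ((2 : ℤ) ^ (k + 3) ∣ u + 3 ^ j) := by
  induction k with
  | zero =>
    intro u hu
    obtain ⟨t, rfl⟩ := hu
    have h : t % 4 = 0 ∨ t % 4 = 1 ∨ t % 4 = 2 ∨ t % 4 = 3 := by omega
    rcases h with h | h | h | h
    · exact ⟨0, Or.inl (by norm_num; omega)⟩
    · exact ⟨1, Or.inl (by norm_num; omega)⟩
    · exact ⟨1, Or.inr (by norm_num; omega)⟩
    · exact ⟨0, Or.inr (by norm_num; omega)⟩
  | succ k ih =>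
    intro u hu
    obtain ⟨j, h | h⟩ := ih u hu
    · obtain ⟨c, hc⟩ := h
      rcases Int.even_or_odd c with ⟨d, hd⟩ | ⟨d, hd⟩
      · exact ⟨j, Or.inl ⟨d, by rw [hc, hd]; ring⟩⟩
      · obtain ⟨c', hc'⟩ := nine_pow k
        obtain ⟨r, hr⟩ : Odd ((3 : ℤ) ^ j) := Odd.pow (by decide)
        refine ⟨j + 2 * 2 ^ k, Or.inl ⟨d - r - c' - 2 * r * c', ?_⟩⟩
        have h9 : (3 : ℤ) ^ (2 * 2 ^ k) = 9 ^ (2 ^ k) := by rw [pow_mul]; norm_num
        have e : u = 2 ^ (k + 3) * c + 3 ^ j := by linear_combination hc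
        rw [pow_add, h9, hc', e, hr, hd]
        ring
    · obtain ⟨c, hc⟩ := h
      rcases Int.even_or_odd c with ⟨d, hd⟩ | ⟨d, hd⟩
      · exact ⟨j, Or.inr ⟨d, by rw [hc, hd]; ring⟩⟩
      · obtain ⟨c', hc'⟩ := nine_pow k
        obtain ⟨r, hr⟩ : Odd ((3 : ℤ) ^ j) := Odd.pow (by decide)
        refine ⟨j + 2 * 2 ^ k, Or.inr ⟨d + 1 + r + c' + 2 * r * c', ?_⟩⟩
        have h9 : (3 : ℤ) ^ (2 * 2 ^ k) = 9 ^ (2 ^ k) := by rw [pow_mul]; norm_num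
        have e : u = 2 ^ (k + 3) * c - 3 ^ j := by linear_combination hc
        rw [pow_add, h9, hc', e, hr, hd]
        ring

theorem u23 : ST_U23 := by
  intro X k f h3 hn u hu x
  have hpow : ∀ (j : ℕ) (y : ZMod (2 ^ k)), f (3 ^ j * y) = f y := by
    intro j
    induction j with
    | zero => intro y; simp
    | succ j ih => intro y; rw [pow_succ, mul_assoc, ih, h3]
  obtain ⟨j, h⟩ := units_two k (u : ℤ) (by exact_mod_cast hu)
  have hk : ((2 ^ k : ℕ) : ℤ) ∣ 2 ^ (k + 3) := by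
    rw [pow_add]; push_cast; exact Dvd.intro _ rfl
  rcases h with h | h
  · have h1 : (((u : ℤ) - 3 ^ j : ℤ) : ZMod (2 ^ k)) = 0 :=
      (ZMod.intCast_zmod_eq_zero_iff_dvd _ _).2 (hk.trans h)
    have h2 : (u : ZMod (2 ^ k)) = 3 ^ j := by
      push_cast at h1
      exact sub_eq_zero.1 h1
    rw [h2, hpow]
  · have h1 : (((u : ℤ) + 3 ^ j : ℤ) : ZMod (2 ^ k)) = 0 :=
      (ZMod.intCast_zmod_eq_zero_iff_dvd _ _).2 (hk.trans h)
    have h2 : (u : ZMod (2 ^ k)) = -(3 ^ j) := by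
      push_cast at h1
      exact eq_neg_of_add_eq_zero_left h1
    rw [h2, neg_mul, hn, hpow]

end H35

end PQ
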