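import Pool.Agent.Helper94.PQ.Stmts

set_option autoImplicit false

open NumberField Polynomial

namespace PQ

namespace H35

theorem zp : ST_ZP := by
  intro p hp
  obtain ⟨l, hl, hpl, hmod⟩ := Nat.exists_prime_gt_modEq_one (k := p) p hp.ne_zero
  have : Fact l.Prime := ⟨hl⟩
  have : Fact p.Prime := ⟨hp⟩
  have hdvd : p ∣ Fintype.card (ZMod l)ˣ := by
    rw [ZMod.card_units]
    exact (Nat.modEq_iff_dvd' hl.one_lt.le).1 hmod.symm
  obtain ⟨g, hg⟩ := exists_prime_orderOf_dvd_card p hdvd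
  have hg1 : g ^ p = 1 := by rw [← hg]; exact pow_orderOf_eq_one g
  have hg2 : g ≠ 1 := by
    rintro rfl
    rw [orderOf_one] at hg
    exact hp.one_lt.ne hg
  set a : ℤ := ((g : ZMod l).val : ℤ) with ha
  have hac : ((a : ℤ) : ZMod l) = (g : ZMod l) := by
    rw [ha]; simp
  have h1 : (l : ℤ) ∣ a ^ p - 1 := by
    rw [← ZMod.intCast_zmod_eq_zero_iff_dvd]
    push_cast
    rw [hac]
    have : ((g ^ p : (ZMod l)ˣ) : ZMod l) = 1 := by rw [hg1]; simp
    rw [Units.val_pow_eq_pow_val] at this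
    rw [this, sub_self]
  have h2 : ¬ (l : ℤ) ∣ a - 1 := by
    rw [← ZMod.intCast_zmod_eq_zero_iff_dvd]
    push_cast
    rw [hac, sub_eq_zero]
    intro h
    exact hg2 (Units.ext (by simpa using h))
  have h3 : ¬ (l : ℤ) ∣ (p : ℤ) * a ^ (p - 1) := by
    intro h
    rcases (Nat.prime_iff_prime_int.1 hl).dvd_or_dvd h with h | h
    · have := Nat.le_of_dvd hp.pos (Int.natCast_dvd_natCast.1 h)
      omega
    · have h4 := (Nat.prime_iff_prime_int.1 hl).dvd_of_dvd_pow h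
      have h5 : (l : ℤ) ∣ a ^ p := dvd_pow h4 hp.ne_zero
      have h6 : (l : ℤ) ∣ 1 := by
        have := dvd_sub h5 h1
        simpa using this
      exact hl.one_lt.ne' (by exact_mod_cast Int.eq_one_of_dvd_one (by positivity) h6)
  have e1 : ((X ^ p - 1 : ℤ[X]).aeval ((a : ℤ) : ℤ_[l])) = ((a ^ p - 1 : ℤ) : ℤ_[l]) := by
    simp
  have e2 : ((X ^ p - 1 : ℤ[X]).derivative.aeval ((a : ℤ) : ℤ_[l])) =
      (((p : ℤ) * a ^ (p - 1) : ℤ) : ℤ_[l]) := by
    simp [derivative_X_pow]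
  have n2 : ‖((X ^ p - 1 : ℤ[X]).derivative.aeval ((a : ℤ) : ℤ_[l]))‖ = 1 := by
    rw [e2]
    refine le_antisymm (PadicInt.norm_le_one _) (not_lt.1 fun h => h3 ?_)
    exact (PadicInt.norm_int_lt_one_iff_dvd _).1 h
  have n1 : ‖((X ^ p - 1 : ℤ[X]).aeval ((a : ℤ) : ℤ_[l]))‖ < 1 := by
    rw [e1]
    exact (PadicInt.norm_int_lt_one_iff_dvd _).2 h1
  obtain ⟨z, hz1, hz2, -, -⟩ := hensels_lemma (F := (X ^ p - 1 : ℤ[X]))
    (a := ((a : ℤ) : ℤ_[l])) (by rw [n2, one_pow]; exact n1)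
  rw [n2] at hz2
  have hz3 : z ^ p = 1 := by
    have : z ^ p - 1 = 0 := by simpa using hz1
    exact sub_eq_zero.1 this
  have hz4 : z ≠ 1 := by
    rintro rfl
    apply h2
    rw [← PadicInt.norm_int_lt_one_iff_dvd (p := l)]
    rw [← norm_neg]
    push_cast
    rw [neg_sub]
    exact hz2
  refine ⟨l, ‹_›, (z : ℚ_[l]), hpl.ne', ?_⟩
  have h5 : orderOf (z : ℚ_[l]) = p := orderOf_eq_prime (by rw [← PadicInt.coe_pow, hz3]; simp)
    (by
      intro h
      exact hz4 (Subtype.ext (by simpa using h)))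
  rw [← h5]
  exact IsPrimitiveRoot.orderOf _

end H35

end PQ
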